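import Pool.Agent.X98.BQ.Final

/-!
# MP_e4edaa_an, Q1 (answer: yes): the temperature projection of the weak sigma-attractor is dense

In fact it is all of `L²` (mean-free functions): every mean-free `θ₀ ∈ L²(𝕋²)` is the temperature
component of a point of the weak sigma-attractor.

The definitions are in `Pool/Agent/X98/BQ/Defs.lean`; functions on the torus are given by their Fourier
coefficients.
-/

set_option autoImplicit false

namespace Pool.Agent.Results.MP_e4edaa_an.DenseProjection

open Pool.Agent.X98.BQ.Sys

/-- The temperature components of the points of the weak sigma-attractor are exactly the mean-free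
functions in `L²(𝕋²)`; in particular they are dense in `L²`. -/
theorem result (L ν g : ℝ) (hL : 0 < L) (hν : 0 < ν) (hg : 0 < g) :
    {θ | ∃ u, (u, θ) ∈ sigmaAttractor L ν g} = {θ | IsField θ} :=
  Pool.Agent.X98.BQ.sigma_projection_eq hL hν hg

end Pool.Agent.Results.MP_e4edaa_an.DenseProjection
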